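import Pool.Agent.H73.TS.Targets

set_option autoImplicit false

open MeasureTheory Set Metric Filter Pool.Agent.H73.TS
open scoped ENNReal Topology

namespace Pool.Agent.H12.TS

theorem inv_rpow_aux (n : ℕ) (D w : ℝ) (hw : 0 < w) :
    (Real.exp (-(Real.pi * D ^ 2)) / w) ^ (-((1 : ℝ) / n)) =
      (w * Real.exp (Real.pi * D ^ 2)) ^ ((1 : ℝ) / n) := by
  have h1 : Real.exp (-(Real.pi * D ^ 2)) / w = (w * Real.exp (Real.pi * D ^ 2))⁻¹ := by
    rw [Real.exp_neg, mul_inv, div_eq_mul_inv, mul_comm]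
  rw [h1, Real.inv_rpow (by positivity), Real.rpow_neg (by positivity), inv_inv]

theorem pw (hCH : T_CH) (hHO : T_HO) : T_PW := by
  intro n D₀ D₁ r w₀ w₁ t hn hD₀ hD₁ hr ht0 ht1 hrD hw₀ hw₁
  set N : ℝ := 8 / 7 * Real.pi * (D₀ ^ 2 + D₁ ^ 2) with hN
  have hpi := Real.pi_pos
  have hn0 : (0 : ℝ) < n := by exact_mod_cast hn
  have hN0 : 0 ≤ N := by rw [hN]; positivity
  rw [inv_rpow_aux n D₀ w₀ hw₀, inv_rpow_aux n D₁ w₁ hw₁]
  rcases eq_or_lt_of_le hN0 with h0 | hpos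
  · -- `N = 0`
    have h1 : D₀ ^ 2 + D₁ ^ 2 = 0 := by
      have h2 : 8 / 7 * Real.pi * (D₀ ^ 2 + D₁ ^ 2) = 0 := by rw [← hN]; exact h0.symm
      rcases mul_eq_zero.1 h2 with h3 | h3
      · exact absurd h3 (by positivity)
      · exact h3
    have h2 : D₀ = 0 := by nlinarith [sq_nonneg D₀, sq_nonneg D₁]
    have h3 : D₁ = 0 := by nlinarith [sq_nonneg D₀, sq_nonneg D₁]
    have h4 : r = 0 := by
      rw [h2, h3] at hrD
      linarith
    rw [← h0, h2, h3, h4]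
    simp only [add_zero, ne_eq, OfNat.ofNat_ne_zero, not_false_eq_true, zero_pow, mul_zero,
      neg_zero, Real.exp_zero, mul_one, one_mul, Real.rpow_natCast]
    exact le_refl _
  · set a₀ : ℝ := (w₀ * Real.exp (Real.pi * D₀ ^ 2)) ^ ((1 : ℝ) / n) with ha₀
    set a₁ : ℝ := (w₁ * Real.exp (Real.pi * D₁ ^ 2)) ^ ((1 : ℝ) / n) with ha₁
    set b₀ : ℝ := Real.exp (-(Real.pi * D₀ ^ 2 / N)) with hb₀
    set b₁ : ℝ := Real.exp (-(Real.pi * D₁ ^ 2 / N)) with hb₁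
    have ha₀p : 0 < a₀ := by rw [ha₀]; positivity
    have ha₁p : 0 < a₁ := by rw [ha₁]; positivity
    have hb₀p : 0 < b₀ := Real.exp_pos _
    have hb₁p : 0 < b₁ := Real.exp_pos _
    have hprod : ∀ w D : ℝ, 0 < w →
        ((w * Real.exp (Real.pi * D ^ 2)) ^ ((1 : ℝ) / n)) ^ (n : ℝ) *
          Real.exp (-(Real.pi * D ^ 2 / N)) ^ N = w := by
      intro w D hw
      rw [← Real.rpow_mul (by positivity), one_div_mul_cancel hn0.ne', Real.rpow_one,
        ← Real.exp_mul]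
      have h5 : -(Real.pi * D ^ 2 / N) * N = -(Real.pi * D ^ 2) := by
        field_simp
      rw [h5, mul_assoc, ← Real.exp_add, add_neg_cancel, Real.exp_zero, mul_one]
    have hHO' := hHO n N t a₀ a₁ b₀ b₁ hn0.le hpos.le (by linarith) ht0 ht1 ha₀p ha₁p hb₀p hb₁p
    rw [hprod w₀ D₀ hw₀, hprod w₁ D₁ hw₁] at hHO'
    refine hHO'.trans ?_
    -- chord inequality
    have hs : Real.sqrt (Real.pi / N) ^ 2 = Real.pi / N := Real.sq_sqrt (by positivity)
    have hCH' := hCH (Real.sqrt (Real.pi / N) * D₀) (Real.sqrt (Real.pi / N) * D₁) t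
      (by positivity) (by positivity) (by
        rw [mul_pow, mul_pow, hs, ← mul_add, div_mul_eq_mul_div, div_le_iff₀ hpos, hN]
        apply le_of_eq
        ring) ht0 ht1
    have e0 : Real.exp (-(Real.sqrt (Real.pi / N) * D₀) ^ 2) = b₀ := by
      rw [mul_pow, hs, hb₀]
      congr 1
      ring
    have e1 : Real.exp (-(Real.sqrt (Real.pi / N) * D₁) ^ 2) = b₁ := by
      rw [mul_pow, hs, hb₁]
      congr 1
      ring
    rw [e0, e1] at hCH'
    have hle : (1 - t) * b₀ + t * b₁ ≤ Real.exp (-(Real.pi / N * r ^ 2)) := by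
      refine hCH'.trans (Real.exp_le_exp.2 ?_)
      have h6 : ((1 - t) * (Real.sqrt (Real.pi / N) * D₀) +
          t * (Real.sqrt (Real.pi / N) * D₁)) ^ 2 = Real.pi / N * ((1 - t) * D₀ + t * D₁) ^ 2 := by
        have h10 : ∀ s : ℝ, ((1 - t) * (s * D₀) + t * (s * D₁)) ^ 2 =
            s ^ 2 * ((1 - t) * D₀ + t * D₁) ^ 2 := fun s => by ring
        rw [h10, hs]
      rw [h6]
      have h7 : r ^ 2 ≤ ((1 - t) * D₀ + t * D₁) ^ 2 := pow_le_pow_left₀ hr hrD 2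
      have h8 : Real.pi / N * r ^ 2 ≤ Real.pi / N * ((1 - t) * D₀ + t * D₁) ^ 2 :=
        mul_le_mul_of_nonneg_left h7 (by positivity)
      linarith
    have hb : 0 ≤ (1 - t) * b₀ + t * b₁ :=
      add_nonneg (mul_nonneg (by linarith) hb₀p.le) (mul_nonneg ht0 hb₁p.le)
    have ha : 0 ≤ (1 - t) * a₀ + t * a₁ :=
      add_nonneg (mul_nonneg (by linarith) ha₀p.le) (mul_nonneg ht0 ha₁p.le)
    have h9 : ((1 - t) * b₀ + t * b₁) ^ N ≤ Real.exp (-(Real.pi * r ^ 2)) := by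
      refine (Real.rpow_le_rpow hb hle hpos.le).trans (le_of_eq ?_)
      rw [← Real.exp_mul]
      congr 1
      field_simp
    rw [Real.rpow_natCast, mul_comm]
    exact mul_le_mul_of_nonneg_right h9 (pow_nonneg ha n)

end Pool.Agent.H12.TS
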