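import Pool.Agent.H73.TS.Targets

set_option autoImplicit false

open MeasureTheory Set Metric Filter Pool.Agent.H73.TS
open scoped ENNReal Topology

namespace Pool.Agent.H12.TS

theorem sup (hROT : T_ROT) (hISO : T_ISO) (hSUA : T_SUA) : T_SUP := by
  intro d Q e c hd2 hd8 hQ hconv he hne1 hne2
  obtain ⟨n, rfl⟩ : ∃ n, d = n + 1 := ⟨d - 1, by omega⟩
  obtain ⟨R, hR⟩ := hROT n e he
  set v : E (n + 1) := cons (-(c - 1 / 2)) 0 with hv
  set ψ : E (n + 1) → E (n + 1) := fun x => v + R x with hψ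
  have hψ0 : ∀ x, (ψ x) 0 = inner ℝ e x - (c - 1 / 2) := by
    intro x
    have h1 : (ψ x) 0 = v 0 + (R x) 0 := rfl
    rw [h1, hR x, hv, cons_zero']
    ring
  have himg : ∀ S : Set (E (n + 1)), ψ '' S = (fun x => v + x) '' ((fun x => R x) '' S) := by
    intro S
    rw [Set.image_image]
  have hW : ∀ S : Set (E (n + 1)), W (ψ '' S) = W S := by
    intro S
    rw [himg, (hISO _ _).2, (hISO _ _).1]
  have hQ' : IsCompact (ψ '' Q) := hQ.image (continuous_const.add R.continuous)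
  have hconv' : Convex ℝ (ψ '' Q) := by
    rw [himg]
    exact (hconv.is_linear_image (f := fun x => R x) R.toLinearEquiv.toLinearMap.isLinear).translate v
  have e1 : ψ '' (Q ∩ {x | inner ℝ e x ≤ c - 1 / 2}) = ψ '' Q ∩ {x | x 0 ≤ 0} := by
    ext y
    constructor
    · rintro ⟨x, ⟨hx, hx2⟩, rfl⟩
      refine ⟨⟨x, hx, rfl⟩, ?_⟩
      show (ψ x) 0 ≤ 0
      have hx3 : inner ℝ e x ≤ c - 1 / 2 := hx2
      rw [hψ0]
      linarith
    · rintro ⟨⟨x, hx, rfl⟩, h⟩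
      refine ⟨x, ⟨hx, ?_⟩, rfl⟩
      have h2 : (ψ x) 0 ≤ 0 := h
      rw [hψ0] at h2
      show inner ℝ e x ≤ c - 1 / 2
      linarith
  have e2 : ψ '' (Q ∩ {x | c + 1 / 2 ≤ inner ℝ e x}) = ψ '' Q ∩ {x | 1 ≤ x 0} := by
    ext y
    constructor
    · rintro ⟨x, ⟨hx, hx2⟩, rfl⟩
      refine ⟨⟨x, hx, rfl⟩, ?_⟩
      show 1 ≤ (ψ x) 0
      have hx3 : c + 1 / 2 ≤ inner ℝ e x := hx2
      rw [hψ0]
      linarith
    · rintro ⟨⟨x, hx, rfl⟩, h⟩
      refine ⟨x, ⟨hx, ?_⟩, rfl⟩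
      have h2 : 1 ≤ (ψ x) 0 := h
      rw [hψ0] at h2
      show c + 1 / 2 ≤ inner ℝ e x
      linarith
  have h := hSUA n (ψ '' Q) (by omega) (by omega) hQ' hconv' (by rw [← e1]; exact hne1.image ψ)
    (by rw [← e2]; exact hne2.image ψ)
  rw [← e1, ← e2, hW, hW, hW] at h
  exact h

end Pool.Agent.H12.TS
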